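import Pool.Agent.Lib.MP_19b52f_al.FC.Wreath

/-! The double of a group along a family of elements, and the action of automorphisms on it. -/

namespace Pool.Agent.Lib.MP_19b52f_al.Dbl

open Pool.Agent.Lib.MP_19b52f_al.FC

/-- The group `P` is the double of `F` along the family `p`, with the base point next to `p o`. -/
structure Double (F P : Type) [Group F] [Group P] {I : Type} (p : I → F) (o : I) where
  ι : F →* P
  κ : F →* P
  t : I → P
  t_o : t o = 1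
  rel : ∀ j, t j * ι (p j) * (t j)⁻¹ = κ (p j)
  lift : ∀ (K : Type) [Group K] (α β : F →* K) (τ : I → K), τ o = 1 →
    (∀ j, τ j * α (p j) * (τ j)⁻¹ = β (p j)) →
    ∃ f : P →* K, (∀ u, f (ι u) = α u) ∧ (∀ u, f (κ u) = β u) ∧ ∀ j, f (t j) = τ j
  ext : ∀ f f' : P →* P, (∀ u, f (ι u) = f' (ι u)) → (∀ u, f (κ u) = f' (κ u)) →
    (∀ j, f (t j) = f' (t j)) → f = f'

namespace Double

variable {F P : Type} [Group F] [Group P] {I : Type} {p : I → F} {o : I} (D : Double F P p o)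

/-- The endomorphism `ψ` is the double of the automorphism `φ`. -/
def Lifts (φ : MulAut F) (ψ : P →* P) : Prop :=
  ∃ T : I → P, (∀ j, ∃ k w, φ (p j) = w * p k * w⁻¹ ∧ T j = D.κ w * D.t k * (D.ι w)⁻¹) ∧
    (∀ u, ψ (D.ι u) = D.ι (φ u)) ∧ (∀ u, ψ (D.κ u) = (T o)⁻¹ * D.κ (φ u) * T o) ∧
    ∀ j, ψ (D.t j) = (T o)⁻¹ * T j

lemma exists_lifts {φ : MulAut F} (h : ∀ i, ∃ j, IsConj (p j) (φ (p i))) : ∃ ψ, D.Lifts φ ψ := by
  choose σ hσ using h
  choose w hw using fun i => isConj_iff.1 (hσ i)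
  let T : I → P := fun j => D.κ (w j) * D.t (σ j) * (D.ι (w j))⁻¹
  obtain ⟨f, h1, h2, h3⟩ := D.lift P (D.ι.comp φ.toMonoidHom)
    ((MulAut.conj (T o)⁻¹).toMonoidHom.comp (D.κ.comp φ.toMonoidHom)) (fun j => (T o)⁻¹ * T j)
    (inv_mul_cancel _) (fun j => by
      change (T o)⁻¹ * T j * D.ι (φ (p j)) * ((T o)⁻¹ * T j)⁻¹ =
        (T o)⁻¹ * D.κ (φ (p j)) * (T o)⁻¹⁻¹
      rw [← hw j, map_mul, map_mul, map_mul, map_mul, map_inv, map_inv, ← D.rel]
      generalize T o = s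
      simp only [T]
      group)
  exact ⟨f, T, fun j => ⟨σ j, w j, (hw j).symm, rfl⟩, h1, fun u => (h2 u).trans (by simp), h3⟩

variable {D}

lemma Lifts.unique (H1 : ∀ i j, IsConj (p i) (p j) → i = j)
    (H2 : ∀ j z, Commute z (p j) → z ∈ Subgroup.zpowers (p j)) {φ : MulAut F} {ψ ψ' : P →* P}
    (h : D.Lifts φ ψ) (h' : D.Lifts φ ψ') : ψ = ψ' := by
  obtain ⟨T, a, a1, a2, a3⟩ := h
  obtain ⟨T', b, b1, b2, b3⟩ := h'
  obtain rfl : T = T' := by
    funext j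
    obtain ⟨k, w, e1, e2⟩ := a j
    obtain ⟨k', w', e3, e4⟩ := b j
    have e5 : w'⁻¹ * w * p k * (w'⁻¹ * w)⁻¹ = p k' := by
      calc _ = w'⁻¹ * (w * p k * w⁻¹) * w' := by group
        _ = _ := by rw [← e1, e3]; group
    obtain rfl := H1 _ _ (isConj_iff.2 ⟨_, e5⟩)
    obtain ⟨m, hm⟩ := H2 k _ (mul_inv_eq_iff_eq_mul.1 e5)
    obtain rfl : w = w' * p k ^ m := by
      rw [show p k ^ m = w'⁻¹ * w from hm]
      group
    rw [e2, e4, map_mul, map_mul, map_zpow, map_zpow, ← D.rel, conj_zpow]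
    group
  exact D.ext _ _ (fun u => (a1 u).trans (b1 u).symm) (fun u => (a2 u).trans (b2 u).symm)
    fun j => (a3 j).trans (b3 j).symm

lemma Lifts.comp {φ φ' : MulAut F} {ψ ψ' : P →* P} (h : D.Lifts φ ψ) (h' : D.Lifts φ' ψ') :
    D.Lifts (φ * φ') (ψ.comp ψ') := by
  obtain ⟨T, a, a1, a2, a3⟩ := h
  obtain ⟨T', b, b1, b2, b3⟩ := h'
  refine ⟨fun j => T o * ψ (T' j), fun j => ?_, fun u => ?_, fun u => ?_, fun j => ?_⟩
  · obtain ⟨k, w, e1, e2⟩ := b j
    obtain ⟨l, v, e3, e4⟩ := a k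
    refine ⟨l, φ w * v, ?_, ?_⟩
    · rw [MulAut.mul_apply, e1, map_mul, map_mul, map_inv, e3]
      group
    · simp only [e2, map_mul, map_inv, a1, a2, a3, e4]
      group
  · rw [MonoidHom.comp_apply, b1, a1, MulAut.mul_apply]
  · simp only [MonoidHom.comp_apply, b2, map_mul, map_inv, a2, MulAut.mul_apply]
    group
  · simp only [MonoidHom.comp_apply, b3, map_mul, map_inv]
    group

variable (D) in
lemma lifts_conj (e : F) : D.Lifts (MulAut.conj e) (MulAut.conj (D.ι e)).toMonoidHom := by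
  refine ⟨fun j => D.κ e * D.t j * (D.ι e)⁻¹, fun j => ⟨j, e, rfl, rfl⟩, fun u => by simp,
    fun u => ?_, fun j => ?_⟩
  · change D.ι e * D.κ u * (D.ι e)⁻¹ = _
    simp only [D.t_o, MulAut.conj_apply, map_mul, map_inv]
    group
  · change D.ι e * D.t j * (D.ι e)⁻¹ = _
    simp only [D.t_o]
    group

variable (D) in
theorem exists_out (H1 : ∀ i j, IsConj (p i) (p j) → i = j)
    (H2 : ∀ j z, Commute z (p j) → z ∈ Subgroup.zpowers (p j)) {G : Type} [Group G]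
    (h : EmbedsInOut G F p) : ∃ f : G →* OutAut P, Function.Injective f ∧
      ∀ x, ∃ (A : MulAut P) (φ : MulAut F), f x = QuotientGroup.mk A ∧
        D.Lifts φ A.toMonoidHom := by
  classical
  obtain ⟨f, hf, h⟩ := h
  have h' : ∀ x, ∃ φ : MulAut F, f x = QuotientGroup.mk φ ∧ (x = 1 → φ = 1) ∧
      ∃ ψ, D.Lifts φ ψ := fun x => by
    by_cases hx : x = 1
    · exact ⟨1, by rw [hx, map_one]; rfl, fun _ => rfl, D.exists_lifts fun i => ⟨i, IsConj.refl _⟩⟩
    · obtain ⟨φ, h1, h2⟩ := h x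
      exact ⟨φ, h1, fun e => absurd e hx, D.exists_lifts h2⟩
  choose φ h1 h2 ψ h3 using h'
  obtain ⟨A, f', hA, hf'⟩ := wreath_lift ψ
    (fun x => by
      have := D.lifts_conj 1
      rw [map_one, ← h2 1 rfl] at this
      rw [(h3 1).unique H1 H2 this]
      simp)
    (fun x y => by
      have e : (QuotientGroup.mk (φ x * φ y)⁻¹ : OutAut F) = QuotientGroup.mk (φ (x * y))⁻¹ := by
        rw [QuotientGroup.mk_inv, QuotientGroup.mk_inv, QuotientGroup.mk_mul, ← h1, ← h1, ← h1,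
          map_mul]
      obtain ⟨c, hc⟩ := QuotientGroup.eq.1 e
      have e2 : φ x * φ y = MulAut.conj c * φ (x * y) := by
        rw [hc]
        group
      have e3 := ((h3 x).comp (h3 y)).unique H1 H2 (e2 ▸ (D.lifts_conj c).comp (h3 (x * y)))
      exact ⟨D.ι c, fun z => DFunLike.congr_fun e3 z⟩)
  have hA' : ∀ x, (A x).toMonoidHom = ψ x := fun x => MonoidHom.ext (hA x)
  refine ⟨f', (injective_iff_map_eq_one f').2 fun x hx => ?_,
    fun x => ⟨A x, φ x, hf' x, hA' x ▸ h3 x⟩⟩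
  rw [hf', QuotientGroup.eq_one_iff] at hx
  obtain ⟨e, he⟩ := hx
  obtain ⟨r, r1, -⟩ := D.lift F (MonoidHom.id F) (MonoidHom.id F) (fun _ => 1) rfl
    (fun j => by simp)
  obtain ⟨T, -, a1, -⟩ := h3 x
  refine (injective_iff_map_eq_one f).1 hf x ?_
  rw [h1, QuotientGroup.eq_one_iff]
  refine ⟨r e, MulEquiv.ext fun u => ?_⟩
  have := congrArg r (a1 u)
  rw [← hA, ← he, MulAut.conj_apply, map_mul, map_mul, map_inv, r1, r1] at this
  exact this

end Double

end Pool.Agent.Lib.MP_19b52f_al.Dbl
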