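import Pool.Agent.Lib.MP_19b52f_al.FC.Defs
import Pool.Agent.Lib.MP_66609f_al.Orient2

/-! The loops around the punctures are pairwise not conjugate and generate their centralisers. -/

namespace Pool.Agent.Lib.MP_19b52f_al.Dbl

open Pool.Agent.Lib.MP_19b52f_al.FC Pool.Agent.Lib.MP_66609f_al

lemma exists_root {X : Type} {a b : FreeGroup X} (hab : Commute a b) :
    ∃ (r : FreeGroup X) (i j : ℤ), r ^ i = a ∧ r ^ j = b := by
  classical
  let J : Subgroup (FreeGroup X) := Subgroup.closure {a, b}
  have hcomm : ∀ u v : J, u * v = v * u := by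
    have := Subgroup.isMulCommutative_closure (k := ({a, b} : Set (FreeGroup X))) (by
      rintro x (rfl | rfl) y (rfl | rfl)
      · rfl
      · exact hab.eq
      · exact hab.eq.symm
      · rfl)
    exact fun u v => this.is_comm.comm u v
  have hsub : Subsingleton (IsFreeGroup.Generators J) := by
    refine ⟨fun u v => ?_⟩
    by_contra huv
    let F : J →* Equiv.Perm (Fin 3) :=
      IsFreeGroup.lift fun x => if x = u then Equiv.swap 0 1 else Equiv.swap 1 2
    have h := congrArg F (hcomm (IsFreeGroup.of u) (IsFreeGroup.of v))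
    simp only [map_mul, F, IsFreeGroup.lift_of, if_true, if_neg (Ne.symm huv)] at h
    revert h
    decide
  have hcyc : IsCyclic J := by
    have : IsCyclic (FreeGroup (IsFreeGroup.Generators J)) := by
      rcases isEmpty_or_nonempty (IsFreeGroup.Generators J) with h | h
      · infer_instance
      · let := uniqueOfSubsingleton h.some
        infer_instance
    exact isCyclic_of_surjective (IsFreeGroup.mulEquiv J) (IsFreeGroup.mulEquiv J).surjective
  obtain ⟨r, hr⟩ := hcyc.exists_generator
  obtain ⟨i, hi⟩ := hr ⟨a, Subgroup.subset_closure (by simp)⟩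
  obtain ⟨j, hj⟩ := hr ⟨b, Subgroup.subset_closure (by simp)⟩
  exact ⟨r, i, j, by simpa using congrArg Subtype.val hi, by simpa using congrArg Subtype.val hj⟩

lemma cent_of_prim {X : Type} {p z : FreeGroup X} (h : ∀ r (k : ℤ), r ^ k = p → IsUnit k)
    (hz : Commute z p) : z ∈ Subgroup.zpowers p := by
  obtain ⟨r, i, k, rfl, hk⟩ := exists_root hz
  refine zpow_mem ?_ i
  rcases Int.isUnit_iff.1 (h r k hk) with rfl | rfl
  · exact ⟨1, by simpa using hk.symm⟩
  · exact ⟨-1, by simp [← hk]⟩

variable {g n : ℕ}

/-- The generators `a i` and `b i`. -/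
def ab (n : ℕ) (i : Fin g) (s : Bool) : SurfFree g n := FreeGroup.of (Sum.inl (i, s))

/-- The generators `x j`. -/
def xx (g : ℕ) (j : Fin n) : SurfFree g n := FreeGroup.of (Sum.inr j)

lemma map_none {K : Type} [Group K] (f : SurfFree g n →* K) : f (puncture g n none) =
    ((List.ofFn fun i => f (ab n i false) * f (ab n i true) * (f (ab n i false))⁻¹ *
      (f (ab n i true))⁻¹).prod * (List.ofFn fun j => f (xx g j)).prod)⁻¹ := by
  simp only [puncture, map_inv, map_mul, map_list_prod, List.map_ofFn, Function.comp_def]
  rfl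

lemma map_none_comm {K : Type} [CommGroup K] (f : SurfFree g n →* K) :
    f (puncture g n none) = (∏ j, f (xx g j))⁻¹ := by
  rw [map_none, List.prod_ofFn, List.prod_ofFn]
  simp

/-- The exponent sum of `x k`. -/
noncomputable def ex (g : ℕ) (k : Fin n) : SurfFree g n →* Multiplicative ℤ :=
  FreeGroup.lift fun s => Multiplicative.ofAdd (if s = Sum.inr k then 1 else 0)

lemma ex_some (k j : Fin n) :
    ex g k (puncture g n (some j)) = Multiplicative.ofAdd (if j = k then 1 else 0) := by
  simp [ex, puncture]

lemma ex_none (k : Fin n) : ex g k (puncture g n none) = Multiplicative.ofAdd (-1) := by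
  rw [map_none_comm, Finset.prod_congr rfl fun j _ => show ex g k (xx g j) = _ from ex_some k j,
    ← ofAdd_sum]
  simp

theorem punct_conj (i j : Option (Fin n)) (h : IsConj (puncture g n i) (puncture g n j)) :
    i = j := by
  have e := fun k => isConj_iff_eq.1 ((ex g k).map_isConj h)
  rcases i with _ | i <;> rcases j with _ | j
  · rfl
  · have := e j
    rw [ex_some, ex_none, if_pos rfl] at this
    exact absurd this (by decide)
  · have := e i
    rw [ex_some, ex_none, if_pos rfl] at this
    exact absurd this (by decide)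
  · have := e i
    rw [ex_some, ex_some, if_pos rfl] at this
    by_contra hij
    rw [if_neg fun e : j = i => hij (by rw [e])] at this
    simp at this

lemma heis_none {V : Type} [AddCommGroup V] {β : V →+ V →+ ℤ} (f : SurfFree g 0 →* Orient2Heis β) :
    f (puncture g 0 none)⁻¹ = ⟨0, ∑ i, (β (f (ab 0 i false)).v (f (ab 0 i true)).v -
      β (f (ab 0 i true)).v (f (ab 0 i false)).v)⟩ := by
  rw [map_inv, map_none, inv_inv, ← orient2_prod]
  simp only [orient2_comm, List.ofFn_zero, List.prod_nil, mul_one]

lemma heis_zpow {V : Type} [AddCommGroup V] {β : V →+ V →+ ℤ} (a : Orient2Heis β) (k : ℤ) :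
    (a ^ k).v = k • a.v ∧ (a.v = 0 → (a ^ k).s = k * a.s) := by
  induction k using Int.induction_on with
  | zero => simp [orient2_one_v, orient2_one_s]
  | succ k ih =>
    rw [zpow_add_one, orient2_mul_v, orient2_mul_s, ih.1]
    exact ⟨by rw [add_smul, one_smul], fun h => by rw [ih.2 h, h, map_zero]; ring⟩
  | pred k ih =>
    rw [zpow_sub_one, orient2_mul_v, orient2_mul_s, ih.1, orient2_inv_v, orient2_inv_s]
    exact ⟨by rw [sub_smul, one_smul, sub_eq_add_neg], fun h => by
      rw [ih.2 h, h, neg_zero, map_zero, map_zero]; ring⟩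

theorem punct_cent (hg : 2 ≤ 2 * g + n) (j : Option (Fin n)) (z : SurfFree g n)
    (h : Commute z (puncture g n j)) : z ∈ Subgroup.zpowers (puncture g n j) := by
  refine cent_of_prim (fun r k hk => ?_) h
  have e := fun l => congrArg (fun u => Multiplicative.toAdd (ex g l u)) hk
  simp only [map_zpow, toAdd_zpow, smul_eq_mul] at e
  rcases j with _ | j
  · rcases n with _ | n
    · let i : Fin g := ⟨0, by omega⟩
      let f : SurfFree g 0 →* Orient2Heis (orient2_el (i, false) (i, true)) :=
        FreeGroup.lift (Sum.elim (fun s => ⟨Pi.single s 1, 0⟩) fun _ => 1)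
      have h1 := heis_none f
      rw [Finset.sum_eq_single i (fun l _ hl => by
        simp [f, ab, orient2_el_apply, hl.symm]) (by simp), ← hk, ← zpow_neg,
        map_zpow] at h1
      have h2 := heis_zpow (f r) (-k)
      rw [h1] at h2
      have h3 : (1 : ℤ) = -k * (f r).s := by
        rcases smul_eq_zero.1 h2.1.symm with h4 | h4
        · rw [h4, zpow_zero] at h1
          have := congrArg Orient2Heis.s h1
          simp [f, ab, orient2_el_apply, orient2_one_s] at this
        · simpa [f, ab, orient2_el_apply] using h2.2 h4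
      exact IsUnit.of_mul_eq_one (-(f r).s) (by linarith)
    · have := e 0
      rw [ex_none] at this
      exact IsUnit.of_mul_eq_one (-_) (by rw [mul_neg, this]; rfl)
  · have := e j
    rw [ex_some, if_pos rfl] at this
    exact IsUnit.of_mul_eq_one _ this

end Pool.Agent.Lib.MP_19b52f_al.Dbl
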