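import Pool.Agent.Lib.MP_19b52f_al.Dbl.Abs
import Pool.Agent.Lib.MP_19b52f_al.Dbl.Punct

/-! The double of a punctured surface is a closed surface. -/

namespace Pool.Agent.Lib.MP_19b52f_al.Dbl

open Pool.Agent.Lib.MP_19b52f_al.FC Pool.Agent.Lib.MP_66609f_al Fin

variable {g n : ℕ} {K : Type} [Group K]

lemma pp_last (x : Fin n → K) : partialProd x (last n) = (List.ofFn x).prod := by
  rw [partialProd, List.take_of_length_le (by simp)]

lemma prod_tele (Q : Fin (n + 1) → K) :
    (List.ofFn fun j : Fin n => (Q j.castSucc)⁻¹ * Q j.succ).prod = (Q 0)⁻¹ * Q (last n) := by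
  rw [← congrFun (partialProd_left_inv Q) (last n)]
  simp [pp_last]

lemma prod_mid (x y : Fin n → K) :
    (List.ofFn fun j => partialProd y j.castSucc * (x j * (y j)⁻¹) *
      (partialProd y j.castSucc)⁻¹).prod = (List.ofFn x).prod * (List.ofFn y).prod⁻¹ := by
  have := prod_tele fun j => partialProd x j * (partialProd y j)⁻¹
  simp only [partialProd_succ, partialProd_zero, pp_last, inv_one, one_mul] at this
  rw [← this]
  refine congrArg (fun f => List.prod (List.ofFn f)) (funext fun j => ?_)
  group

lemma prod_rev (c : Fin n → K) : (List.ofFn fun j => (c (rev j))⁻¹).prod = (List.ofFn c).prod⁻¹ := by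
  rw [List.prod_inv_reverse]
  congr 1
  refine List.ext_getElem (by simp) fun i h1 h2 => ?_
  simp only [List.getElem_ofFn, List.getElem_reverse, List.getElem_map, List.length_map,
    List.length_ofFn]
  congr 2
  exact Fin.ext (by simp only [val_rev]; omega)

/-- The index of a handle of the first copy. -/
def i1 (n : ℕ) (i : Fin g) : Fin (g + n + g) := castAdd g (castAdd n i)

/-- The index of a handle that joins the two copies. -/
def i2 (g : ℕ) (j : Fin n) : Fin (g + n + g) := castAdd g (natAdd g j)

/-- The index of a handle of the second copy. -/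
def i3 (n : ℕ) (i : Fin g) : Fin (g + n + g) := natAdd (g + n) i

lemma idx_cases {r : Fin (g + n + g) → Prop} (h1 : ∀ i, r (i1 n i)) (h2 : ∀ j, r (i2 g j))
    (h3 : ∀ i, r (i3 n i)) (k) : r k :=
  addCases (motive := r) (addCases (motive := fun k => r (castAdd g k)) h1 h2) h3 k

lemma i12 (i : Fin g) (j : Fin n) : i1 n i ≠ i2 g j := fun e => by
  have := congrArg Fin.val e
  simp only [i1, i2, val_castAdd, val_natAdd] at this
  omega

lemma i32 (i : Fin g) (j : Fin n) : i3 n i ≠ i2 g j := fun e => by
  have := congrArg Fin.val e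
  simp only [i3, i2, val_castAdd, val_natAdd] at this
  omega

lemma i22 (i j : Fin n) : i2 g i = i2 g j ↔ i = j := by
  simp only [i2, Fin.ext_iff, val_castAdd, val_natAdd]
  omega

/-- The product of the first mirrored loops. -/
def pre (β : SurfFree g n →* K) (j : Fin n) : K := partialProd (fun l => β (xx g l)) j.castSucc

/-- The standard generators in terms of the two copies and the connecting letters. -/
def gens (α β : SurfFree g n →* K) (τ : Fin n → K) (k : Fin (g + n + g) × Bool) : K :=
  append (append (fun i => α (ab n i k.2))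
    fun j => pre β j * (if k.2 then τ j else α (xx g j)) * (pre β j)⁻¹)
    (fun i => β (ab n (rev i) !k.2)) k.1

variable (α β : SurfFree g n →* K) (τ : Fin n → K)

lemma gens1 (i s) : gens α β τ (i1 n i, s) = α (ab n i s) := by simp [gens, i1]

lemma gens2 (j s) : gens α β τ (i2 g j, s) =
    pre β j * (if s then τ j else α (xx g j)) * (pre β j)⁻¹ := by simp [gens, i2]

lemma gens3 (i s) : gens α β τ (i3 n i, s) = β (ab n (rev i) !s) := by simp [gens, i3]

lemma map_gens {L : Type} [Group L] (f : K →* L) (k) :
    f (gens α β τ k) = gens (f.comp α) (f.comp β) (fun j => f (τ j)) k := by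
  obtain ⟨k, s⟩ := k
  induction k using idx_cases with
  | h1 i => rw [gens1, gens1]; rfl
  | h2 j =>
    have : f (pre β j) = pre (f.comp β) j := by
      simp [pre, partialProd, map_list_prod, List.map_take, Function.comp_def]
    rw [gens2, gens2, map_mul, map_mul, map_inv, this]
    cases s <;> rfl
  | h3 i => rw [gens3, gens3]; rfl

variable {α β τ}

lemma gens_rel (h : ∀ j, τ j * α (xx g j) * (τ j)⁻¹ = β (xx g j)) :
    FreeGroup.lift (gens α β τ) (surfRel (g + n + g)) =
      (α (puncture g n none))⁻¹ * β (puncture g n none) := by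
  rw [surfRel, map_list_prod, List.map_ofFn, List.ofFn_add, List.ofFn_add, List.prod_append,
    List.prod_append, map_none, map_none, inv_inv, mul_inv_rev, mul_assoc, mul_assoc,
    ← mul_assoc (List.prod _) (_)⁻¹, ← prod_mid, ← prod_rev]
  simp only [Function.comp_apply, map_mul, map_inv, FreeGroup.lift_apply_of]
  congr 2
  · exact congrArg _ (funext fun i => by rw [← gens1 α β τ, ← gens1 α β τ]; rfl)
  · refine congrArg (fun f => List.prod (List.ofFn f)) (funext fun j => ?_)
    have e1 := gens2 α β τ j true
    have e2 := gens2 α β τ j false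
    simp only [if_true, Bool.false_eq_true, if_false] at e1 e2
    change gens α β τ (i2 g j, false) * gens α β τ (i2 g j, true) *
      (gens α β τ (i2 g j, false))⁻¹ * (gens α β τ (i2 g j, true))⁻¹ = pre β j * _ * (pre β j)⁻¹
    rw [e1, e2, ← h]
    group
  · refine congrArg (fun f => List.prod (List.ofFn f)) (funext fun i => ?_)
    change gens α β τ (i3 n i, false) * gens α β τ (i3 n i, true) *
      (gens α β τ (i3 n i, false))⁻¹ * (gens α β τ (i3 n i, true))⁻¹ = _
    rw [gens3, gens3, Bool.not_true, Bool.not_false]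
    group

lemma gens_inj {α' β' : SurfFree g n →* K} {τ' : Fin n → K}
    (h : ∀ j, τ j * α (xx g j) * (τ j)⁻¹ = β (xx g j))
    (h' : ∀ j, τ' j * α' (xx g j) * (τ' j)⁻¹ = β' (xx g j))
    (e : ∀ k, gens α β τ k = gens α' β' τ' k) : α = α' ∧ β = β' ∧ τ = τ' := by
  have k1 : ∀ j, pre β j = pre β' j → α (xx g j) = α' (xx g j) ∧ τ j = τ' j := fun j hj => by
    have e1 := e (i2 g j, true)
    have e2 := e (i2 g j, false)
    rw [gens2, gens2, hj] at e1 e2
    exact ⟨by simpa using e2, by simpa using e1⟩
  have k2 : ∀ j : Fin (n + 1),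
      partialProd (fun l => β (xx g l)) j = partialProd (fun l => β' (xx g l)) j := fun j => by
    induction j using Fin.induction with
    | zero => simp
    | succ j ih => rw [partialProd_succ, partialProd_succ, ih, ← h, ← h', (k1 j ih).1, (k1 j ih).2]
  have k3 := fun j : Fin n => k1 j (k2 j.castSucc)
  refine ⟨FreeGroup.ext_hom _ _ ?_, FreeGroup.ext_hom _ _ ?_, funext fun j => (k3 j).2⟩
  · rintro (⟨i, s⟩ | j)
    · exact (gens1 α β τ i s).symm.trans ((e _).trans (gens1 ..))
    · exact (k3 j).1
  · rintro (⟨i, s⟩ | j)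
    · simpa [gens3, ab] using e (i3 n (rev i), !s)
    · exact (h j).symm.trans (by rw [(k3 j).1, (k3 j).2]; exact h' j)

lemma exists_gens (c : Fin (g + n + g) × Bool → K) : ∃ (α β : SurfFree g n →* K) (τ : Fin n → K),
    (∀ j, τ j * α (xx g j) * (τ j)⁻¹ = β (xx g j)) ∧ ∀ k, gens α β τ k = c k := by
  let y : Fin n → K := fun j => c (i2 g j, true) * c (i2 g j, false) * (c (i2 g j, true))⁻¹
  let U : Fin (n + 1) → K := fun j => (partialProd (fun l => (y l)⁻¹) j)⁻¹
  let β : SurfFree g n →* K := FreeGroup.lift (Sum.elim (fun s => c (i3 n (rev s.1), !s.2))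
    fun j => (U j.castSucc)⁻¹ * U j.succ)
  have hβ : ∀ j, β (xx g j) = (U j.castSucc)⁻¹ * U j.succ := fun j => by simp [β, xx]
  have hU : ∀ j, pre β j = U j.castSucc := fun j => by
    have := congrFun (partialProd_left_inv U) j.castSucc
    simpa [pre, hβ, U] using this
  refine ⟨FreeGroup.lift (Sum.elim (fun s => c (i1 n s.1, s.2))
    fun j => (U j.castSucc)⁻¹ * c (i2 g j, false) * U j.castSucc), β,
    fun j => (U j.castSucc)⁻¹ * c (i2 g j, true) * U j.castSucc, fun j => ?_, fun ⟨k, s⟩ => ?_⟩
  · have : U j.succ = y j * U j.castSucc := by simp [U, partialProd_succ]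
    rw [hβ, this]
    simp only [xx, y, FreeGroup.lift_apply_of, Sum.elim_inr]
    group
  · induction k using idx_cases with
    | h1 i => simp [gens1, ab]
    | h2 j => cases s <;> simp [gens2, hU, xx, mul_assoc]
    | h3 i => simp [gens3, ab, β]

theorem exists_double (g n : ℕ) :
    ∃ D : Double (SurfFree g n) (SurfaceGroup (g + n + g)) (puncture g n) none,
      ∀ k, gens D.ι D.κ (fun j => D.t (some j)) k = PresentedGroup.of k := by
  obtain ⟨ι, κ, t, h, e⟩ := exists_gens (K := SurfaceGroup (g + n + g)) PresentedGroup.of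
  refine ⟨⟨ι, κ, fun j => j.elim 1 t, rfl, ?_, fun K _ α β τ h0 h1 => ?_,
    fun f f' h1 h2 h3 => PresentedGroup.ext fun k => ?_⟩, e⟩
  · rintro (_ | j)
    · have h1 := gens_rel h
      rw [funext e] at h1
      have h2 : FreeGroup.lift PresentedGroup.of = PresentedGroup.mk {surfRel (g + n + g)} :=
        FreeGroup.ext_hom _ _ fun k => FreeGroup.lift_apply_of
      rw [h2, PresentedGroup.one_of_mem (Set.mem_singleton _)] at h1
      simpa using inv_mul_eq_one.1 h1.symm
    · exact h j
  · let f : SurfaceGroup (g + n + g) →* K := PresentedGroup.toGroup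
      (f := gens α β fun j => τ (some j)) (by
        rintro _ rfl
        rw [gens_rel fun j => h1 (some j), ← h1 none, h0]
        simp)
    obtain ⟨e1, e2, e3⟩ := gens_inj (α := f.comp ι) (β := f.comp κ) (τ := fun j => f (t j))
      (fun j => by simp [← h]) (fun j => h1 (some j))
      (fun k => by rw [← map_gens, e]; exact PresentedGroup.toGroup.of _)
    refine ⟨f, DFunLike.congr_fun e1, DFunLike.congr_fun e2, ?_⟩
    rintro (_ | j)
    · exact (map_one f).trans h0.symm
    · exact congrFun e3 j
  · rw [← e, map_gens, map_gens, MonoidHom.ext (f := f.comp ι) (g := f'.comp ι) h1,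
      MonoidHom.ext (f := f.comp κ) (g := f'.comp κ) h2,
      show (fun j => f (t j)) = fun j => f' (t j) from funext fun j => h3 (some j)]

end Pool.Agent.Lib.MP_19b52f_al.Dbl
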