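import Pool.Agent.Lib.MP_19b52f_al.Dbl.Ori
import Pool.Agent.Lib.MP_19b52f_al.FC.Main
import Pool.Agent.Lib.MP_66609f_al.DN.Fin

/-! From punctured surfaces in algebraic form to the mapping class group of a closed surface. -/

namespace Pool.Agent.Lib.MP_19b52f_al.Dbl

open Pool.Agent.Lib.MP_19b52f_al.FC Pool.Agent.Lib.MP_66609f_al Pool.Agent.Lib.MP_66609f_al.DN

theorem embeds_top {G : Type} [Group G] (h : EmbedsInMCG G) :
    ∃ (g : ℕ) (hg : 2 ≤ g) (f : G →* MCGtop g hg), Function.Injective f := by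
  obtain ⟨g, n, hg, h⟩ := h
  obtain ⟨D, e⟩ := exists_double g n
  obtain ⟨f, hf, h1⟩ := D.exists_out punct_conj (punct_cent hg) h
  have h2 : 2 ≤ g + n + g := by omega
  obtain ⟨E⟩ := dehn_nielsen_baer _ h2
  let f' : G →* Out (SurfaceGroup (g + n + g)) := f
  refine ⟨_, h2, E.symm.toMonoidHom.comp (f'.codRestrict (MP_66609f_al.Mod _) fun x => ?_),
    E.symm.injective.comp fun x y hxy => hf (congrArg Subtype.val hxy)⟩
  obtain ⟨A, φ, h3, h4⟩ := h1 x
  exact ⟨A, lifts_plus e hg h4, h3.symm⟩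

end Pool.Agent.Lib.MP_19b52f_al.Dbl
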