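import Pool.Agent.Lib.MP_19b52f_al.Dbl.Conc

/-! The double of an automorphism preserves the intersection form. -/

namespace Pool.Agent.Lib.MP_19b52f_al.Dbl

open Pool.Agent.Lib.MP_19b52f_al.FC Pool.Agent.Lib.MP_66609f_al Fin Multiplicative

/-- The intersection form in its first argument. -/
def lf {G : ℕ} (y : SurfaceGroup G) : SurfaceGroup G →* Multiplicative ℤ :=
  MonoidHom.mk' (fun x => ofAdd (interForm G x y)) fun a b => by
    rw [orient2_form, orient2_form, orient2_form, orient2_ex_mul, add_dotProduct, ofAdd_add]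

/-- The intersection form in its second argument. -/
def rf {G : ℕ} (x : SurfaceGroup G) : SurfaceGroup G →* Multiplicative ℤ :=
  MonoidHom.mk' (fun y => ofAdd (interForm G x y)) fun a b => by
    rw [orient2_form, orient2_form, orient2_form, orient2_ex_mul, Matrix.mulVec_add,
      dotProduct_add, ofAdd_add]

lemma lf_rf {G : ℕ} (x y : SurfaceGroup G) : lf y x = rf x y := rfl

lemma expo_of {G : ℕ} (j k : Fin G × Bool) :
    expo G j (PresentedGroup.of k) = ofAdd (if k = j then 1 else 0) := PresentedGroup.toGroup.of _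

variable {g n : ℕ} {D : Double (SurfFree g n) (SurfaceGroup (g + n + g)) (puncture g n) none}
  (e : ∀ k, gens D.ι D.κ (fun j => D.t (some j)) k = PresentedGroup.of k)

include e

lemma chi_x (χ : SurfaceGroup (g + n + g) →* Multiplicative ℤ) (j : Fin n) :
    χ (D.ι (xx g j)) = χ (PresentedGroup.of (i2 g j, false)) := by
  simp [← e, gens2]

lemma chi_t (χ : SurfaceGroup (g + n + g) →* Multiplicative ℤ) (j : Fin n) :
    χ (D.t (some j)) = χ (PresentedGroup.of (i2 g j, true)) := by
  simp [← e, gens2]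

lemma rf_some (j : Fin n) (y) : rf (D.ι (puncture g n (some j))) y = expo _ (i2 g j, true) y := by
  rw [← lf_rf]
  exact (chi_x e _ j).trans (congrArg ofAdd ((orient2_form_of _ _).trans (one_mul _)))

lemma rf_none (y) : rf (D.ι (puncture g n none)) y = (∏ j, expo _ (i2 g j, true) y)⁻¹ :=
  (map_none_comm ((lf y).comp D.ι)).trans
    (congrArg _ (Finset.prod_congr rfl fun j _ => rf_some e j y))

lemma expo_ι (j : Fin n) (u) : expo _ (i2 g j, true) (D.ι u) = 1 := by
  refine DFunLike.congr_fun (FreeGroup.ext_hom ((expo _ (i2 g j, true)).comp D.ι) 1 ?_) u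
  rintro (⟨i, s⟩ | l)
  · change expo _ _ (D.ι (ab n i s)) = 1
    rw [← gens1 D.ι D.κ, e, expo_of, if_neg fun h => i12 _ _ (congrArg Prod.fst h)]
    rfl
  · exact (chi_x e _ l).trans ((expo_of _ _).trans (by simp))

lemma expo_κ (j : Fin n) (u) : expo _ (i2 g j, true) (D.κ u) = 1 := by
  refine DFunLike.congr_fun (FreeGroup.ext_hom ((expo _ (i2 g j, true)).comp D.κ) 1 ?_) u
  rintro (⟨i, s⟩ | l)
  · change expo _ _ (D.κ (ab n i s)) = 1
    have := gens3 D.ι D.κ (fun j => D.t (some j)) (rev i) (!s)
    rw [rev_rev, Bool.not_not] at this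
    rw [← this, e, expo_of, if_neg fun h => i32 _ _ (congrArg Prod.fst h)]
    rfl
  · change expo _ _ (D.κ (puncture g n (some l))) = 1
    simp [← D.rel, expo_ι e]

lemma expo_t (j : Fin n) (l) :
    expo _ (i2 g j, true) (D.t l) = ofAdd (if l = some j then 1 else 0) := by
  rcases l with _ | l
  · simp [D.t_o]
  · simp [chi_t e, expo_of, i22]

lemma rf_ι (k u) : rf (D.ι (puncture g n k)) (D.ι u) = 1 := by
  rcases k with _ | k
  · simp [rf_none e, expo_ι e]
  · rw [rf_some e, expo_ι e]

lemma rf_κ (k u) : rf (D.ι (puncture g n k)) (D.κ u) = 1 := by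
  rcases k with _ | k
  · simp [rf_none e, expo_κ e]
  · rw [rf_some e, expo_κ e]

lemma rf_t {k m} (h : k ≠ m) :
    (rf (D.ι (puncture g n k)) (D.t m))⁻¹ * rf (D.ι (puncture g n k)) (D.t k) = ofAdd 1 := by
  rcases k with _ | k
  · obtain ⟨m, rfl⟩ := Option.ne_none_iff_exists'.1 h.symm
    rw [D.t_o, map_one, mul_one, rf_none e, inv_inv, Finset.prod_congr rfl fun j _ => expo_t e j _,
      ← ofAdd_sum]
    simp
  · rw [rf_some e, rf_some e, expo_t e, expo_t e, if_pos rfl, if_neg h.symm]
    simp

theorem lifts_plus (hg : 2 ≤ 2 * g + n) {φ : MulAut (SurfFree g n)}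
    {A : MulAut (SurfaceGroup (g + n + g))} (h : D.Lifts φ A.toMonoidHom) :
    A ∈ AutPlus (g + n + g) := by
  obtain ⟨c, hc⟩ := orient2_scale ⟨0, by omega⟩ A
  suffices c = 1 from fun x y => by rw [hc, this, one_mul]
  obtain ⟨T, a, a1, -, a3⟩ := h
  change ∀ u, A _ = _ at a1 a3
  obtain ⟨m, v, b1, b2⟩ := a none
  rcases n with _ | n
  · let β := ∑ i : Fin (g + 0 + g), orient2_el (i, false) (i, true)
    have hβ : ∀ x y, β (orient2_ex x) (orient2_ex y) - β (orient2_ex y) (orient2_ex x) =
        interForm _ x y := fun x y => by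
      simp only [β, AddMonoidHom.finsetSum_apply, orient2_el_apply, ← Finset.sum_sub_distrib]
      exact Finset.sum_congr rfl fun i _ => congrArg _ (mul_comm _ _)
    let η : SurfFree g 0 →* Orient2Heis β :=
      FreeGroup.lift fun s => ⟨orient2_ex (D.ι (.of s)), 0⟩
    have hη : ∀ u, (η u).v = orient2_ex (D.ι u) := fun u => by
      induction u using FreeGroup.induction_on with
      | C1 => rw [map_one, map_one, orient2_ex_one, orient2_one_v]
      | of s => simp [η]
      | inv_of s ih => rw [map_inv, map_inv, orient2_ex_inv, orient2_inv_v, ih]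
      | mul x y hx hy => rw [map_mul, map_mul, orient2_ex_mul, orient2_mul_v, hx, hy]
    have h1 := heis_none η
    have h2 := heis_none (η.comp φ.toMonoidHom)
    have h3 : ∀ i, interForm _ (D.ι (ab 0 i false)) (D.ι (ab 0 i true)) = 1 := fun i => by
      rw [← gens1 D.ι D.κ, ← gens1 D.ι D.κ, e, e, orient2_form_of, orient2_ex_of]
      simp
    change η (φ _) = ⟨0, ∑ i, (β (η (φ _)).v (η (φ _)).v - β (η (φ _)).v (η (φ _)).v)⟩ at h2
    obtain rfl : m = none := Subsingleton.elim _ _
    rw [map_inv, b1, conj_inv, map_mul, map_mul, h1, map_inv] at h2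
    have h4 := congrArg Orient2Heis.s h2
    simp only [hη, hβ, ← a1, hc, h3, orient2_mul_s, orient2_mul_v, orient2_inv_s, orient2_inv_v,
      map_zero, add_zero, map_neg, Finset.sum_const, Finset.card_univ, Fintype.card_fin,
      nsmul_eq_mul, mul_one] at h4
    exact mul_left_cancel₀ (show (g : ℤ) ≠ 0 by omega) (by linarith)
  · obtain ⟨k, w, b3, b4⟩ := a (some 0)
    have hk : k ≠ m := by
      rintro rfl
      have : IsConj (φ (puncture g _ none)) (φ (puncture g _ (some 0))) :=
        (isConj_iff.2 ⟨v, b1.symm⟩).symm.trans (isConj_iff.2 ⟨w, b3.symm⟩)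
      exact Option.some_ne_none _ (punct_conj (g := g) none (some 0)
        (by simpa using φ.symm.toMonoidHom.map_isConj this)).symm
    have h1 := rf_t e hk
    have h2 := rf_t e (k := some 0) (m := none) (by simp)
    rw [D.t_o, map_one, inv_one, one_mul] at h2
    have h3 : rf (A (D.ι (puncture g _ (some 0)))) (A (D.t (some 0))) = ofAdd 1 := by
      rw [a1, a3, b3, ← lf_rf, map_mul, map_mul, map_mul, map_mul, map_inv, map_inv,
        mul_inv_cancel_comm, lf_rf, b2, b4, ← h1]
      simp [rf_ι e, rf_κ e]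
    have h4 := hc (D.ι (puncture g _ (some 0))) (D.t (some 0))
    rw [show interForm _ _ _ = 1 from ofAdd.injective h3,
      show interForm _ _ _ = 1 from ofAdd.injective h2, mul_one] at h4
    exact h4.symm

end Pool.Agent.Lib.MP_19b52f_al.Dbl
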